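import Mathlib
import Pool.Agent.Lib_helper10.LogRank.Defs
import Pool.Agent.Lib_helper74.LR.Adm
import Pool.Agent.Lib_helper74.LR.Final

set_option autoImplicit false

namespace Pool.Agent.Results.MP_e5d384_lc.SymmetricMatrices

open Pool.Agent.Lib_helper10.LogRank Pool.Agent.Lib_helper74.LR

/-- The log-rank conjecture for Boolean matrices with symmetry.
`G = ∏ i, K i` is a product of any number of finite groups, each of which is an alternating group
of degree at least `5` or a perfect quasirandom group (see `Admissible`). `G` acts on the finite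
sets `X₀` (with at most `2 ^ a` orbits) and `Y₀` (with any number of orbits);
`B = [0,N_1) × ... × [0,N_k)` is a box. The rows of the matrix `F` are labelled (surjectively) by
`B × X₀`, the columns (surjectively) by `B × Y₀`, and the entry in row `(u, x)` and column `(v, y)`
depends only on the vector `u + v` and on the `G`-orbit of the pair `(x, y)`. -/
theorem result : ∃ C : ℕ, ∀ (A c a k : ℕ) (N : Fin k → ℕ) (ι : Type) [Fintype ι] (K : ι → Type)
    [∀ i, Group (K i)] [∀ i, Finite (K i)], (∀ i, Admissible A c (K i)) →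
    ∀ (X₀ Y₀ : Type) [Fintype X₀] [Fintype Y₀] [MulAction (∀ i, K i) X₀]
    [MulAction (∀ i, K i) Y₀],
    Nat.card (MulAction.orbitRel.Quotient (∀ i, K i) X₀) ≤ 2 ^ a →
    ∀ f : (Fin k → ℕ) → X₀ → Y₀ → Bool,
    (∀ (g : ∀ i, K i) (w : Fin k → ℕ) (x : X₀) (y : Y₀), f w (g • x) (g • y) = f w x y) →
    ∀ (X Y : Type) [Fintype X] [Fintype Y] (row : (∀ j, Fin (N j)) × X₀ → X)
    (col : (∀ j, Fin (N j)) × Y₀ → Y), Function.Surjective row → Function.Surjective col →
    ∀ F : X → Y → Bool,
    (∀ u x v y, F (row (u, x)) (col (v, y)) = f (fun j => (u j : ℕ) + v j) x y) →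
    ∃ π : Protocol X Y, (∀ x y, π.eval x y = F x y) ∧
      π.cost ≤ a + C * (A + 1) * (k + 1) ^ 5 * (Nat.log 2 (realRank F) + 1) ^ (c + 7) :=
  ⟨100000, fun A c a k N ι _ K _ _ hK X₀ Y₀ _ _ _ _ hX f hf X Y _ _ row col hrow hcol F hF =>
    final A c a k N ι K hK X₀ Y₀ hX f hf X Y row col hrow hcol F hF⟩

end Pool.Agent.Results.MP_e5d384_lc.SymmetricMatrices
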